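import Pool.Agent.U744.BC2.Geo

/-!
# Products with a Gaussian factor: the Poincaré constant
-/

set_option autoImplicit false

namespace Pool.Agent.U744.BC2

open MeasureTheory ProbabilityTheory Filter Topology
open Pool.Agent.Results.MP_7c2736_pr.NoPoincareBound
open scoped ENNReal NNReal ContDiff RealInnerProductSpace

variable {m : ℕ}

/-- a smooth cut-off function -/
noncomputable def bump : ContDiffBump (0 : ℝ) := ⟨1, 2, one_pos, one_lt_two⟩

/-- the rescaled cut-off function -/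
noncomputable def chi (k : ℕ) (s : ℝ) : ℝ := bump (s / (k + 1))

lemma chi_nonneg (k : ℕ) (s : ℝ) : 0 ≤ chi k s := bump.nonneg

lemma chi_le_one (k : ℕ) (s : ℝ) : chi k s ≤ 1 := bump.le_one

lemma contDiff_chi (k : ℕ) : ContDiff ℝ ∞ (chi k) := by
  unfold chi
  exact bump.contDiff.comp (contDiff_id.div_const _)

lemma chi_eq_zero (k : ℕ) (s : ℝ) (h : 2 * ((k : ℝ) + 1) ≤ |s|) : chi k s = 0 := by
  unfold chi
  apply bump.zero_of_le_dist
  have hk : (0 : ℝ) < (k : ℝ) + 1 := by positivity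
  rw [Real.dist_eq, sub_zero, abs_div, abs_of_pos hk, le_div_iff₀ hk]
  exact h

lemma chi_eventually_one (s : ℝ) : ∀ᶠ k : ℕ in atTop, chi k s = 1 := by
  obtain ⟨n, hn⟩ := exists_nat_ge |s|
  filter_upwards [eventually_ge_atTop n] with k hk
  unfold chi
  apply bump.one_of_mem_closedBall
  have hk0 : (0 : ℝ) < (k : ℝ) + 1 := by positivity
  have hk1 : (n : ℝ) ≤ k := by exact_mod_cast hk
  rw [Metric.mem_closedBall, Real.dist_eq, sub_zero, abs_div, abs_of_pos hk0, div_le_iff₀ hk0]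
  change |s| ≤ 1 * ((k : ℝ) + 1)
  linarith

lemma exists_deriv_bound : ∃ M : ℝ, 0 ≤ M ∧ ∀ (k : ℕ) (s : ℝ), |deriv (chi k) s| ≤ M / (k + 1) := by
  have h1 : Continuous (deriv (bump : ℝ → ℝ)) :=
    (bump.contDiff (n := 1)).continuous_deriv (by simp)
  obtain ⟨M, hM⟩ := h1.bounded_above_of_compact_support bump.hasCompactSupport.deriv
  refine ⟨M, (norm_nonneg _).trans (hM 0), fun k s => ?_⟩
  have hk0 : (0 : ℝ) < (k : ℝ) + 1 := by positivity
  have h2 : HasDerivAt (chi k) (deriv (bump : ℝ → ℝ) (s / (k + 1)) * (1 / (k + 1))) s := by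
    unfold chi
    have h3 : HasDerivAt (fun s : ℝ => s / ((k : ℝ) + 1)) (1 / (k + 1)) s :=
      (hasDerivAt_id s).div_const _
    have h4 : HasDerivAt (bump : ℝ → ℝ) (deriv (bump : ℝ → ℝ) (s / (k + 1))) (s / (k + 1)) :=
      (((bump.contDiff (n := 1)).differentiable (by simp)) _).hasDerivAt
    exact HasDerivAt.comp (h₂ := fun t => bump t) (h := fun s : ℝ => s / ((k : ℝ) + 1)) s h4 h3
  rw [h2.deriv, abs_mul, abs_of_pos (by positivity : (0 : ℝ) < 1 / (k + 1)), mul_one_div]
  gcongr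
  exact hM _

/-- expectation of `chi ^ j` tends to one -/
lemma tendsto_chi (g : Measure ℝ) [IsProbabilityMeasure g] (j : ℕ) :
    Tendsto (fun k => ∫ s, chi k s ^ j ∂g) atTop (𝓝 1) := by
  have h := tendsto_integral_of_dominated_convergence (μ := g) (F := fun k s => chi k s ^ j)
    (f := fun _ => (1 : ℝ)) (fun _ => (1 : ℝ))
    (fun k => ((contDiff_chi k).continuous.pow j).aestronglyMeasurable)
    (integrable_const _)
    (fun k => Eventually.of_forall fun s => by
      rw [Real.norm_eq_abs, abs_pow, abs_of_nonneg (chi_nonneg k s)]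
      exact pow_le_one₀ (chi_nonneg k s) (chi_le_one k s))
    (Eventually.of_forall fun s => by
      refine tendsto_const_nhds.congr' ?_
      filter_upwards [chi_eventually_one s] with k hk
      rw [hk, one_pow])
  simpa using h

/-- the cut-off of a function of the orthogonal part -/
noncomputable def cut (f : E m → ℝ) (k : ℕ) (x : E (m + 1)) : ℝ := chi k (hd m x) * f (tl m x)

lemma contDiff_cut {f : E m → ℝ} (hf : ContDiff ℝ ∞ f) (k : ℕ) : ContDiff ℝ ∞ (cut f k) := by
  unfold cut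
  exact ((contDiff_chi k).comp (hd m).contDiff).mul (hf.comp (tl m).contDiff)

lemma hasCompactSupport_cut {f : E m → ℝ} (hf : HasCompactSupport f) (k : ℕ) :
    HasCompactSupport (cut f k) := by
  obtain ⟨R, hR⟩ := hf.isCompact.isBounded.subset_closedBall (0 : E m)
  set A : ℝ := 2 * ((k : ℝ) + 1) with hA
  have hA0 : 0 ≤ A := by positivity
  refine HasCompactSupport.intro (isCompact_closedBall (0 : E (m + 1)) (A + |R|)) fun x hx => ?_
  rw [Metric.mem_closedBall, dist_zero_right, not_le] at hx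
  unfold cut
  by_cases h : A ≤ |hd m x|
  · rw [chi_eq_zero k _ h, zero_mul]
  · push Not at h
    have h2 : |R| < ‖tl m x‖ := by
      by_contra h3
      push Not at h3
      have h4 := norm_sq_eq x
      have h5 : ‖x‖ ^ 2 ≤ (A + |R|) ^ 2 := by
        rw [h4]
        have h6 : (hd m x) ^ 2 ≤ A ^ 2 := by
          rw [← sq_abs]
          exact pow_le_pow_left₀ (abs_nonneg _) h.le 2
        have h7 : ‖tl m x‖ ^ 2 ≤ |R| ^ 2 := pow_le_pow_left₀ (norm_nonneg _) h3 2
        nlinarith [abs_nonneg R]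
      have h8 : ‖x‖ ≤ A + |R| := le_of_sq_le_sq h5 (by positivity)
      linarith
    have h3 : f (tl m x) = 0 := by
      by_contra h4
      have h5 := hR (subset_tsupport f h4)
      rw [Metric.mem_closedBall, dist_zero_right] at h5
      have h6 := le_abs_self R
      linarith
    rw [h3, mul_zero]

lemma norm_gradient {n : ℕ} (f : E n → ℝ) (x : E n) : ‖gradient f x‖ = ‖fderiv ℝ f x‖ := by
  unfold gradient
  rw [LinearIsometryEquiv.norm_map]

lemma norm_hd : ‖hd m‖ ≤ 1 :=
  ContinuousLinearMap.opNorm_le_bound _ zero_le_one fun x => by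
    rw [one_mul]; exact norm_hd_le x

lemma norm_tl : ‖tl m‖ ≤ 1 :=
  ContinuousLinearMap.opNorm_le_bound _ zero_le_one fun x => by
    rw [one_mul]; exact norm_tl_le x

lemma norm_fderiv_cut_le {f : E m → ℝ} (hf : ContDiff ℝ ∞ f) {K M : ℝ} (hK : ∀ y, ‖f y‖ ≤ K)
    (hM : ∀ (k : ℕ) (s : ℝ), |deriv (chi k) s| ≤ M / (k + 1)) (k : ℕ) (x : E (m + 1)) :
    ‖fderiv ℝ (cut f k) x‖ ≤ ‖fderiv ℝ f (tl m x)‖ + K * (M / (k + 1)) := by
  have h1 : HasFDerivAt (fun x : E (m + 1) => chi k (hd m x))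
      ((deriv (chi k) (hd m x)) • (hd m)) x := by
    have h2 : HasDerivAt (chi k) (deriv (chi k) (hd m x)) (hd m x) :=
      (((contDiff_chi k).differentiable (by simp)) _).hasDerivAt
    exact h2.comp_hasFDerivAt x (hd m).hasFDerivAt
  have h3 : HasFDerivAt (fun x : E (m + 1) => f (tl m x)) ((fderiv ℝ f (tl m x)).comp (tl m)) x :=
    ((hf.differentiable (by simp)) _).hasFDerivAt.comp x (tl m).hasFDerivAt
  have h4 := h1.mul h3
  have h5 : fderiv ℝ (cut f k) x = chi k (hd m x) • (fderiv ℝ f (tl m x)).comp (tl m) +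
      f (tl m x) • (deriv (chi k) (hd m x)) • (hd m) := h4.fderiv
  rw [h5]
  refine (norm_add_le _ _).trans (add_le_add ?_ ?_)
  · rw [norm_smul, Real.norm_eq_abs, abs_of_nonneg (chi_nonneg _ _)]
    calc chi k (hd m x) * ‖(fderiv ℝ f (tl m x)).comp (tl m)‖
        ≤ 1 * (‖fderiv ℝ f (tl m x)‖ * 1) := by
          refine mul_le_mul (chi_le_one _ _) ?_ (norm_nonneg _) zero_le_one
          exact (ContinuousLinearMap.opNorm_comp_le _ _).trans
            (mul_le_mul_of_nonneg_left norm_tl (norm_nonneg _))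
      _ = _ := by ring
  · rw [norm_smul, norm_smul, Real.norm_eq_abs (deriv _ _)]
    have hK0 : 0 ≤ K := (norm_nonneg _).trans (hK 0)
    refine mul_le_mul (hK _) ?_ (by positivity) hK0
    calc |deriv (chi k) (hd m x)| * ‖hd m‖ ≤ |deriv (chi k) (hd m x)| * 1 :=
          mul_le_mul_of_nonneg_left norm_hd (abs_nonneg _)
      _ = |deriv (chi k) (hd m x)| := mul_one _
      _ ≤ _ := hM k _

lemma integral_sub_sq {n : ℕ} (μ : Measure (E n)) [IsProbabilityMeasure μ] {f : E n → ℝ}
    (h1 : Integrable f μ) (h2 : Integrable (fun x => f x ^ 2) μ) (c : ℝ) :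
    ∫ x, (f x - c) ^ 2 ∂μ = ∫ x, f x ^ 2 ∂μ - 2 * c * ∫ x, f x ∂μ + c ^ 2 := by
  have h3 : (fun x => (f x - c) ^ 2) = fun x => (f x ^ 2 - 2 * c * f x) + c ^ 2 := by
    funext x; ring
  have h4 : Integrable (fun x => f x ^ 2 - 2 * c * f x) μ := h2.sub (h1.const_mul _)
  rw [h3, integral_add h4 (integrable_const _), integral_sub h2 (h1.const_mul _),
    integral_const_mul, integral_const]
  simp

lemma var_eq {n : ℕ} (μ : Measure (E n)) [IsProbabilityMeasure μ] {f : E n → ℝ}
    (hf : Continuous f) (hs : HasCompactSupport f) :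
    ∫ x, (f x - ∫ y, f y ∂μ) ^ 2 ∂μ = ∫ x, f x ^ 2 ∂μ - (∫ x, f x ∂μ) ^ 2 := by
  have h1 : Integrable f μ := hf.integrable_of_hasCompactSupport hs
  have h2 : Integrable (fun x => f x ^ 2) μ := by
    simp only [pow_two]
    exact (hf.mul hf).integrable_of_hasCompactSupport hs.mul_left
  rw [integral_sub_sq μ h1 h2]
  ring

lemma integral_cut_pow (g : Measure ℝ) [IsProbabilityMeasure g] (ν : Measure (E m))
    [IsProbabilityMeasure ν] {f : E m → ℝ} (hf : Continuous f) (k j : ℕ) :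
    ∫ x, cut f k x ^ j ∂(prodM g ν) = (∫ s, chi k s ^ j ∂g) * ∫ y, f y ^ j ∂ν := by
  unfold prodM
  have hc : Continuous fun x => cut f k x ^ j := by
    unfold cut
    have := (contDiff_chi k).continuous
    fun_prop
  rw [integral_map measurable_Ph.aemeasurable hc.aestronglyMeasurable, ← integral_prod_mul]
  refine integral_congr_ae (Eventually.of_forall fun p => ?_)
  simp [cut, mul_pow]

/-- **The Poincaré constant does not decrease when a factor is added.** -/
theorem poincareConst_le_prodM (g : Measure ℝ) [IsProbabilityMeasure g] (ν : Measure (E m))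
    [IsProbabilityMeasure ν] : poincareConst ν ≤ poincareConst (prodM g ν) := by
  unfold poincareConst
  refine le_sInf fun C hC => ?_
  by_cases hCt : C = ⊤
  · rw [hCt]; exact le_top
  refine sInf_le ?_
  intro f hf hs
  obtain ⟨K, hK⟩ := hf.continuous.bounded_above_of_compact_support hs
  obtain ⟨L, hL⟩ := (hf.continuous_fderiv (by simp)).bounded_above_of_compact_support
    (hs.fderiv (𝕜 := ℝ))
  obtain ⟨M, hM0, hM⟩ := exists_deriv_bound
  have hK0 : 0 ≤ K := (norm_nonneg _).trans (hK 0)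
  have hL0 : 0 ≤ L := (norm_nonneg _).trans (hL 0)
  set d : ℕ → ℝ := fun k => K * (M / (k + 1)) with hd'
  have hd0 : ∀ k, 0 ≤ d k := fun k => by positivity
  have hdt : Tendsto d atTop (𝓝 0) := by
    have h1 : Tendsto (fun k : ℕ => M / ((k : ℝ) + 1)) atTop (𝓝 0) :=
      tendsto_const_nhds.div_atTop (tendsto_natCast_atTop_atTop.atTop_add tendsto_const_nhds)
    simpa using h1.const_mul K
  set I : ℝ≥0∞ := ∫⁻ y, ‖gradient f y‖ₑ ^ 2 ∂ν with hI
  have hgm : Measurable fun y => ‖gradient f y‖ₑ ^ 2 := by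
    have h1 : (fun y => ‖gradient f y‖ₑ ^ 2) = fun y => ‖fderiv ℝ f y‖ₑ ^ 2 := by
      funext y
      rw [← ofReal_norm, ← ofReal_norm, norm_gradient]
    rw [h1]
    have h2 : Continuous fun y => fderiv ℝ f y := hf.continuous_fderiv (by simp)
    fun_prop
  have hbound : ∀ k, ∫⁻ x, ‖gradient (cut f k) x‖ₑ ^ 2 ∂(prodM g ν) ≤
      I + ENNReal.ofReal (d k * (d k + 2 * L)) := by
    intro k
    have h1 : ∀ x : E (m + 1), ‖gradient (cut f k) x‖ₑ ^ 2 ≤
        ‖gradient f (tl m x)‖ₑ ^ 2 + ENNReal.ofReal (d k * (d k + 2 * L)) := by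
      intro x
      have h2 := norm_fderiv_cut_le hf hK hM k x
      have h3 := hL (tl m x)
      have h4 : ‖fderiv ℝ (cut f k) x‖ ^ 2 ≤
          ‖fderiv ℝ f (tl m x)‖ ^ 2 + d k * (d k + 2 * L) := by
        have h5 : ‖fderiv ℝ (cut f k) x‖ ^ 2 ≤ (‖fderiv ℝ f (tl m x)‖ + d k) ^ 2 :=
          pow_le_pow_left₀ (norm_nonneg _) h2 2
        have h6 := mul_le_mul_of_nonneg_left h3 (hd0 k)
        nlinarith
      rw [← ofReal_norm, ← ofReal_norm, norm_gradient, norm_gradient,
        ← ENNReal.ofReal_pow (norm_nonneg _), ← ENNReal.ofReal_pow (norm_nonneg _),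
        ← ENNReal.ofReal_add (by positivity) (by have := hd0 k; positivity)]
      exact ENNReal.ofReal_le_ofReal h4
    refine (lintegral_mono h1).trans ?_
    rw [lintegral_add_right _ measurable_const, lintegral_const, measure_univ, mul_one]
    gcongr
    rw [hI]
    conv_rhs => rw [← prodM_map_tl g ν]
    rw [lintegral_map hgm (tl m).continuous.measurable]
  have hk : ∀ k, ENNReal.ofReal ((∫ s, chi k s ^ 2 ∂g) * (∫ y, f y ^ 2 ∂ν) -
      ((∫ s, chi k s ^ 1 ∂g) * ∫ y, f y ^ 1 ∂ν) ^ 2) ≤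
      C * (I + ENNReal.ofReal (d k * (d k + 2 * L))) := by
    intro k
    have h1 := hC (cut f k) (contDiff_cut hf k) (hasCompactSupport_cut hs k)
    rw [var_eq _ (contDiff_cut hf k).continuous (hasCompactSupport_cut hs k)] at h1
    have h2 := integral_cut_pow g ν hf.continuous k 1
    simp only [pow_one] at h2
    rw [integral_cut_pow g ν hf.continuous k 2, h2] at h1
    simp only [pow_one]
    exact h1.trans (mul_le_mul_right (hbound k) C)
  rw [var_eq ν hf.continuous hs]
  have hleft : Tendsto (fun k => ENNReal.ofReal ((∫ s, chi k s ^ 2 ∂g) * (∫ y, f y ^ 2 ∂ν) -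
      ((∫ s, chi k s ^ 1 ∂g) * ∫ y, f y ^ 1 ∂ν) ^ 2)) atTop
      (𝓝 (ENNReal.ofReal (∫ y, f y ^ 2 ∂ν - (∫ y, f y ∂ν) ^ 2))) := by
    apply ENNReal.tendsto_ofReal
    have h1 := ((tendsto_chi g 2).mul_const (∫ y, f y ^ 2 ∂ν)).sub
      (((tendsto_chi g 1).mul_const (∫ y, f y ^ 1 ∂ν)).pow 2)
    simpa using h1
  have hright : Tendsto (fun k => C * (I + ENNReal.ofReal (d k * (d k + 2 * L)))) atTop
      (𝓝 (C * I)) := by
    have h1 : Tendsto (fun k => ENNReal.ofReal (d k * (d k + 2 * L))) atTop (𝓝 0) := by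
      have h2 : Tendsto (fun k => d k * (d k + 2 * L)) atTop (𝓝 0) := by
        have := hdt.mul (hdt.add_const (2 * L))
        simpa using this
      simpa using ENNReal.tendsto_ofReal h2
    have h3 : Tendsto (fun k => I + ENNReal.ofReal (d k * (d k + 2 * L))) atTop (𝓝 I) := by
      simpa using tendsto_const_nhds.add h1
    exact ENNReal.Tendsto.const_mul h3 (Or.inr hCt)
  exact le_of_tendsto_of_tendsto' hleft hright hk

end Pool.Agent.U744.BC2
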