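import Pool.Agent.Results.MP_7c2736_pr.NoPoincareBound

/-!
# Products with a Gaussian factor: geometry, couplings and barycenters
-/

set_option autoImplicit false

namespace Pool.Agent.U744.BC2

open MeasureTheory ProbabilityTheory Pool.Agent.Results.MP_7c2736_pr.NoPoincareBound
open scoped ENNReal NNReal ContDiff RealInnerProductSpace

/-- the orthogonal sum of a line and `ℝ^m` -/
abbrev V (m : ℕ) : Type := WithLp 2 (ℝ × E m)

lemma finrank_V (m : ℕ) : Module.finrank ℝ (V m) = m + 1 := by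
  have h := (WithLp.linearEquiv 2 ℝ (ℝ × E m)).finrank_eq
  rw [h, Module.finrank_prod]
  simp [add_comm]

/-- `ℝ ⊕ ℝ^m ≃ ℝ^(m+1)` -/
noncomputable def iso (m : ℕ) : V m ≃ₗᵢ[ℝ] E (m + 1) :=
  ((stdOrthonormalBasis ℝ (V m)).reindex (finCongr (finrank_V m))).repr

/-- the point with first coordinate `p.1` and orthogonal part `p.2` -/
noncomputable def Ph (m : ℕ) (p : ℝ × E m) : E (m + 1) := iso m (WithLp.toLp 2 p)

/-- first coordinate -/
noncomputable def hd (m : ℕ) : E (m + 1) →L[ℝ] ℝ :=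
  ((ContinuousLinearMap.fst ℝ ℝ (E m)).comp
    (WithLp.prodContinuousLinearEquiv 2 ℝ ℝ (E m)).toContinuousLinearMap).comp
    (iso m).symm.toContinuousLinearEquiv.toContinuousLinearMap

/-- orthogonal part -/
noncomputable def tl (m : ℕ) : E (m + 1) →L[ℝ] E m :=
  ((ContinuousLinearMap.snd ℝ ℝ (E m)).comp
    (WithLp.prodContinuousLinearEquiv 2 ℝ ℝ (E m)).toContinuousLinearMap).comp
    (iso m).symm.toContinuousLinearEquiv.toContinuousLinearMap

variable {m : ℕ}

@[simp] lemma hd_Ph (p : ℝ × E m) : hd m (Ph m p) = p.1 := by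
  simp [hd, Ph]

@[simp] lemma tl_Ph (p : ℝ × E m) : tl m (Ph m p) = p.2 := by
  simp [tl, Ph]

lemma Ph_hd_tl (x : E (m + 1)) : Ph m (hd m x, tl m x) = x := by
  have h : (WithLp.toLp 2 (hd m x, tl m x) : V m) = (iso m).symm x := by
    apply (WithLp.prodContinuousLinearEquiv 2 ℝ ℝ (E m)).injective
    simp only [hd, tl, ContinuousLinearMap.coe_comp, Function.comp_apply]
    rfl
  rw [Ph, h]
  simp

lemma norm_sq_Ph (p : ℝ × E m) : ‖Ph m p‖ ^ 2 = p.1 ^ 2 + ‖p.2‖ ^ 2 := by
  rw [Ph, LinearIsometryEquiv.norm_map, WithLp.prod_norm_sq_eq_of_L2]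
  simp

lemma norm_sq_eq (x : E (m + 1)) : ‖x‖ ^ 2 = (hd m x) ^ 2 + ‖tl m x‖ ^ 2 := by
  conv_lhs => rw [← Ph_hd_tl x]
  exact norm_sq_Ph _

lemma norm_tl_le (x : E (m + 1)) : ‖tl m x‖ ≤ ‖x‖ := by
  have h := norm_sq_eq x
  have h1 : ‖tl m x‖ ^ 2 ≤ ‖x‖ ^ 2 := by nlinarith [sq_nonneg (hd m x)]
  exact le_of_sq_le_sq h1 (norm_nonneg _) 

lemma norm_hd_le (x : E (m + 1)) : ‖hd m x‖ ≤ ‖x‖ := by
  have h := norm_sq_eq x
  have h1 : ‖hd m x‖ ^ 2 ≤ ‖x‖ ^ 2 := by
    rw [Real.norm_eq_abs, sq_abs]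
    nlinarith [sq_nonneg ‖tl m x‖]
  exact le_of_sq_le_sq h1 (norm_nonneg _)

lemma Ph_sub (s : ℝ) (y z : E m) : Ph m (s, y) - Ph m (s, z) = Ph m (0, y - z) := by
  unfold Ph
  rw [← map_sub]
  congr 1
  apply (WithLp.prodContinuousLinearEquiv 2 ℝ ℝ (E m)).injective
  simp

lemma norm_Ph_zero (y : E m) : ‖Ph m (0, y)‖ = ‖y‖ := by
  have h := norm_sq_Ph (m := m) (0, y)
  have h1 : ‖Ph m (0, y)‖ ^ 2 = ‖y‖ ^ 2 := by rw [h]; simp
  exact (sq_eq_sq₀ (norm_nonneg _) (norm_nonneg _)).1 h1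

lemma continuous_Ph : Continuous (Ph m) := by
  unfold Ph
  exact (iso m).continuous.comp (WithLp.prod_continuous_toLp 2 ℝ (E m))

lemma measurable_Ph : Measurable (Ph m) := continuous_Ph.measurable

lemma measurePreserving_Ph : MeasurePreserving (Ph m) (volume.prod volume) volume :=
  (iso m).measurePreserving.comp (WithLp.volume_preserving_toLp ℝ (E m))

/-- the product of a measure on the line and a measure on `ℝ^m`, as a measure on `ℝ^(m+1)` -/
noncomputable def prodM (g : Measure ℝ) (μ : Measure (E m)) : Measure (E (m + 1)) :=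
  (g.prod μ).map (Ph m)

instance (g : Measure ℝ) (μ : Measure (E m)) [IsProbabilityMeasure g] [IsProbabilityMeasure μ] :
    IsProbabilityMeasure (prodM g μ) :=
  Measure.isProbabilityMeasure_map measurable_Ph.aemeasurable

lemma prodM_map_tl (g : Measure ℝ) (μ : Measure (E m)) [IsProbabilityMeasure g]
    [IsProbabilityMeasure μ] : (prodM g μ).map (tl m) = μ := by
  unfold prodM
  rw [Measure.map_map (tl m).continuous.measurable measurable_Ph]
  have h : (tl m) ∘ (Ph m) = Prod.snd := by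
    funext p
    simp
  rw [h, Measure.map_snd_prod]
  simp

lemma W2sq_le {n : ℕ} {π : Measure (E n × E n)} {ν μ : Measure (E n)} (h : IsCoupling π ν μ) :
    W2sq ν μ ≤ ∫⁻ z, ‖z.1 - z.2‖ₑ ^ 2 ∂π := iInf₂_le π h

lemma le_W2sq {n : ℕ} {c : ℝ≥0∞} {ν μ : Measure (E n)}
    (h : ∀ π : Measure (E n × E n), IsCoupling π ν μ → c ≤ ∫⁻ z, ‖z.1 - z.2‖ₑ ^ 2 ∂π) :
    c ≤ W2sq ν μ := le_iInf₂ h

/-- projecting couplings does not increase the cost -/
lemma W2sq_proj_le (g : Measure ℝ) [IsProbabilityMeasure g] (μ : Measure (E m))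
    [IsProbabilityMeasure μ] (ν' : Measure (E (m + 1))) :
    W2sq (ν'.map (tl m)) μ ≤ W2sq ν' (prodM g μ) := by
  refine le_W2sq fun π hπ => ?_
  have hm : Measurable (fun z : E (m + 1) × E (m + 1) => (tl m z.1, tl m z.2)) := by
    fun_prop
  have hc : IsCoupling (π.map fun z => (tl m z.1, tl m z.2)) (ν'.map (tl m)) μ := by
    constructor
    · rw [Measure.map_map measurable_fst hm, ← hπ.1, Measure.map_map (by fun_prop) measurable_fst]
      rfl
    · rw [Measure.map_map measurable_snd hm]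
      conv_rhs => rw [← prodM_map_tl g μ, ← hπ.2]
      rw [Measure.map_map (by fun_prop) measurable_snd]
      rfl
  refine (W2sq_le hc).trans ?_
  rw [lintegral_map (by fun_prop) hm]
  refine lintegral_mono fun z => ?_
  have h1 : ‖tl m z.1 - tl m z.2‖ ≤ ‖z.1 - z.2‖ := by
    rw [← map_sub]
    exact norm_tl_le _
  have h2 : ‖tl m z.1 - tl m z.2‖ₑ ≤ ‖z.1 - z.2‖ₑ := by
    rw [← ofReal_norm, ← ofReal_norm]
    exact ENNReal.ofReal_le_ofReal h1
  exact pow_le_pow_left' h2 2

/-- products of couplings with the identical coupling -/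
lemma W2sq_prodM_le (g : Measure ℝ) [IsProbabilityMeasure g] (μ ν : Measure (E m))
    [IsProbabilityMeasure μ] [IsProbabilityMeasure ν] :
    W2sq (prodM g ν) (prodM g μ) ≤ W2sq ν μ := by
  refine le_W2sq fun π hπ => ?_
  have hπp : IsProbabilityMeasure π := by
    refine ⟨?_⟩
    have h := congrArg (fun ρ => ρ Set.univ) hπ.1
    simp only [measure_univ] at h
    rwa [Measure.map_apply measurable_fst MeasurableSet.univ, Set.preimage_univ] at h
  have hm : Measurable (fun p : ℝ × (E m × E m) => (Ph m (p.1, p.2.1), Ph m (p.1, p.2.2))) := by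
    have := measurable_Ph (m := m)
    fun_prop
  have hc : IsCoupling ((g.prod π).map fun p => (Ph m (p.1, p.2.1), Ph m (p.1, p.2.2)))
      (prodM g ν) (prodM g μ) := by
    constructor
    · rw [Measure.map_map measurable_fst hm]
      unfold prodM
      have h1 : g.prod ν = (g.prod π).map (Prod.map id Prod.fst) := by
        rw [← Measure.map_prod_map g π measurable_id measurable_fst, Measure.map_id, hπ.1]
      rw [h1, Measure.map_map measurable_Ph (by fun_prop)]
      rfl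
    · rw [Measure.map_map measurable_snd hm]
      unfold prodM
      have h1 : g.prod μ = (g.prod π).map (Prod.map id Prod.snd) := by
        rw [← Measure.map_prod_map g π measurable_id measurable_snd, Measure.map_id, hπ.2]
      rw [h1, Measure.map_map measurable_Ph (by fun_prop)]
      rfl
  refine (W2sq_le hc).trans ?_
  rw [lintegral_map (by fun_prop) hm]
  have h1 : ∀ p : ℝ × (E m × E m), ‖Ph m (p.1, p.2.1) - Ph m (p.1, p.2.2)‖ₑ ^ 2 =
      ‖p.2.1 - p.2.2‖ₑ ^ 2 := by
    intro p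
    rw [Ph_sub, ← ofReal_norm, norm_Ph_zero, ofReal_norm]
  simp only [h1]
  have h2 : ∫⁻ p : ℝ × (E m × E m), ‖p.2.1 - p.2.2‖ₑ ^ 2 ∂(g.prod π) =
      ∫⁻ z, ‖z.1 - z.2‖ₑ ^ 2 ∂π := by
    have h3 := lintegral_map (μ := g.prod π) (f := fun z : E m × E m => ‖z.1 - z.2‖ₑ ^ 2)
      (g := Prod.snd) (by fun_prop) measurable_snd
    rw [Measure.map_snd_prod] at h3
    simpa using h3.symm
  rw [h2]

/-- the barycenter of products with one and the same factor -/
lemma isBarycenter_prodM {N : ℕ} (g : Measure ℝ) [IsProbabilityMeasure g] (w : Fin N → ℝ)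
    (μ : Fin N → Measure (E m)) (ν : Measure (E m)) (hμ : ∀ i, IsProbabilityMeasure (μ i))
    (h : IsBarycenter w μ ν) : IsBarycenter w (fun i => prodM g (μ i)) (prodM g ν) := by
  obtain ⟨hν, hmin⟩ := h
  refine ⟨inferInstance, fun ν' hν' => ?_⟩
  have hν'' : IsProbabilityMeasure (ν'.map (tl m)) :=
    Measure.isProbabilityMeasure_map (tl m).continuous.measurable.aemeasurable
  calc ∑ i, ENNReal.ofReal (w i) * W2sq (prodM g ν) (prodM g (μ i))
      ≤ ∑ i, ENNReal.ofReal (w i) * W2sq ν (μ i) :=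
        Finset.sum_le_sum fun i _ => mul_le_mul_right (by
          have := hμ i
          exact W2sq_prodM_le g (μ i) ν) _
    _ ≤ ∑ i, ENNReal.ofReal (w i) * W2sq (ν'.map (tl m)) (μ i) := hmin _ hν''
    _ ≤ _ := Finset.sum_le_sum fun i _ => mul_le_mul_right (by
          have := hμ i
          exact W2sq_proj_le g (μ i) ν') _

end Pool.Agent.U744.BC2
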