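import Pool.Agent.U744.BC2.Geo

/-!
# Products with a Gaussian factor: log-concavity
-/

set_option autoImplicit false

namespace Pool.Agent.U744.BC2

open MeasureTheory ProbabilityTheory Pool.Agent.Results.MP_7c2736_pr.NoPoincareBound
open scoped ENNReal NNReal ContDiff RealInnerProductSpace

variable {m : ℕ}

lemma exp_neg_add (r : ℝ) (v : EReal) (hv : v ≠ ⊥) :
    EReal.exp (-((r : EReal) + v)) = EReal.exp (-(r : EReal)) * EReal.exp (-v) := by
  rw [← EReal.exp_add]
  congr 1
  induction v with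
  | bot => exact absurd rfl hv
  | top => simp
  | coe v => norm_cast; ring

lemma coe_add_sub (r s : ℝ) (v : EReal) :
    ((r : EReal) + v) - (s : EReal) = v - ((s - r : ℝ) : EReal) := by
  induction v with
  | bot => simp
  | top => rw [EReal.coe_add_top, EReal.top_sub_coe, EReal.top_sub_coe]
  | coe v => norm_cast; ring

lemma gaussian_eq (κ : ℝ) (hκ : 0 < κ) : ∃ c : ℝ≥0∞,
    gaussianReal 0 (Real.toNNReal κ⁻¹) = c • (volume : Measure ℝ).withDensity
      fun s => EReal.exp (-((κ * s ^ 2 / 2 : ℝ) : EReal)) := by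
  have hv : Real.toNNReal κ⁻¹ ≠ 0 := by
    simpa using hκ
  refine ⟨ENNReal.ofReal (√(2 * Real.pi * (Real.toNNReal κ⁻¹ : ℝ)))⁻¹, ?_⟩
  rw [gaussianReal_of_var_ne_zero 0 hv, ← withDensity_smul _ (by
    simp only [← EReal.coe_neg, EReal.exp_coe]
    fun_prop)]
  congr 1
  funext s
  simp only [Pi.smul_apply, smul_eq_mul, gaussianPDF, gaussianPDFReal, ← EReal.coe_neg,
    EReal.exp_coe]
  rw [← ENNReal.ofReal_mul (by positivity)]
  congr 2
  rw [Real.coe_toNNReal _ (by positivity)]
  congr 1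
  field_simp
  ring

/-- a probability measure with density proportional to `f` -/
lemma eq_inv_smul_of_prob {n : ℕ} {μ : Measure (E n)} [IsProbabilityMeasure μ] {c : ℝ≥0∞}
    {f : E n → ℝ≥0∞} (h : μ = c • volume.withDensity f) :
    (∫⁻ x, f x) ≠ 0 ∧ (∫⁻ x, f x) ≠ ⊤ ∧ μ = (∫⁻ x, f x)⁻¹ • volume.withDensity f := by
  have h1 : c * ∫⁻ x, f x = 1 := by
    have h2 : μ Set.univ = 1 := measure_univ
    rw [h, Measure.smul_apply, withDensity_apply _ MeasurableSet.univ, Measure.restrict_univ,
      smul_eq_mul] at h2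
    exact h2
  have hc : c = (∫⁻ x, f x)⁻¹ := ENNReal.eq_inv_of_mul_eq_one_left h1
  refine ⟨fun h0 => ?_, fun h0 => ?_, hc ▸ h⟩
  · rw [h0, mul_zero] at h1
    exact zero_ne_one h1
  · rw [h0] at hc h1
    rw [hc] at h1
    simp at h1

/-- the potential of the product -/
noncomputable def pot (κ : ℝ) (W : E m → EReal) (x : E (m + 1)) : EReal :=
  ((κ * (hd m x) ^ 2 / 2 : ℝ) : EReal) + W (tl m x)

lemma slc_prodM {κ : ℝ} (hκ : 0 < κ) {μ : Measure (E m)} (hμ : IsProbabilityMeasure μ)
    (h : StronglyLogConcave κ μ) :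
    StronglyLogConcave κ (prodM (gaussianReal 0 (Real.toNNReal κ⁻¹)) μ) := by
  obtain ⟨W, hbot, ⟨x0, hx0⟩, hlsc, hconv, -, -, hW⟩ := h
  have hWm : Measurable fun y => EReal.exp (-W y) :=
    EReal.measurable_exp.comp hlsc.measurable.neg
  have hpl : LowerSemicontinuous (pot κ W) := by
    refine LowerSemicontinuous.add' ?_ (hlsc.comp (tl m).continuous) fun x => ?_
    · have hc : Continuous fun x : E (m + 1) => ((κ * (hd m x) ^ 2 / 2 : ℝ) : EReal) :=
        continuous_coe_real_ereal.comp (by fun_prop)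
      exact hc.lowerSemicontinuous
    · exact EReal.continuousAt_add (Or.inl (EReal.coe_ne_top _)) (Or.inl (EReal.coe_ne_bot _))
  have hprod : ∃ c : ℝ≥0∞, prodM (gaussianReal 0 (Real.toNNReal κ⁻¹)) μ =
      c • volume.withDensity fun x => EReal.exp (-pot κ W x) := by
    obtain ⟨c, hc⟩ := gaussian_eq κ hκ
    set Z := (∫⁻ x, EReal.exp (-W x))⁻¹ with hZ
    have hgm : Measurable fun s : ℝ => EReal.exp (-((κ * s ^ 2 / 2 : ℝ) : EReal)) := by
      simp only [← EReal.coe_neg, EReal.exp_coe]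
      fun_prop
    have hpm : Measurable fun x : E (m + 1) => EReal.exp (-pot κ W x) :=
      EReal.measurable_exp.comp hpl.measurable.neg
    refine ⟨c * Z, ?_⟩
    have h1 : (gaussianReal 0 (Real.toNNReal κ⁻¹)).prod μ =
        (c * Z) • ((volume : Measure ℝ).prod (volume : Measure (E m))).withDensity
          fun p => EReal.exp (-pot κ W (Ph m p)) := by
      rw [hc, hW, ← withDensity_smul _ hgm, ← withDensity_smul _ hWm,
        prod_withDensity (hgm.const_smul c) (hWm.const_smul Z)]
      have h2 := withDensity_smul (μ := (volume : Measure ℝ).prod (volume : Measure (E m))) (c * Z)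
        (hpm.comp measurable_Ph)
      simp only [Function.comp_def] at h2
      rw [← h2]
      congr 1
      funext p
      simp only [Pi.smul_apply, smul_eq_mul, pot, hd_Ph, tl_Ph]
      rw [exp_neg_add _ _ (hbot _)]
      ring
    unfold prodM
    rw [h1, Measure.map_smul]
    congr 1
    ext s hs
    rw [Measure.map_apply measurable_Ph hs, withDensity_apply _ (measurable_Ph hs),
      withDensity_apply _ hs,
      measurePreserving_Ph.setLIntegral_comp_preimage hs hpm]
  obtain ⟨c, hc⟩ := hprod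
  obtain ⟨h1, h2, h3⟩ := eq_inv_smul_of_prob hc
  refine ⟨pot κ W, fun x => ?_, ⟨Ph m (0, x0), ?_⟩, hpl, ?_, h1, h2, h3⟩
  · unfold pot
    intro h0
    rw [EReal.add_eq_bot_iff] at h0
    rcases h0 with h0 | h0
    · exact EReal.coe_ne_bot _ h0
    · exact hbot _ h0
  · unfold pot
    rw [tl_Ph]
    exact (EReal.add_ne_top (EReal.coe_ne_top _) hx0)
  · intro x y a b ha hb hab
    have key : ∀ z : E (m + 1), pot κ W z - ((κ * ‖z‖ ^ 2 / 2 : ℝ) : EReal) =
        W (tl m z) - ((κ * ‖tl m z‖ ^ 2 / 2 : ℝ) : EReal) := by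
      intro z
      unfold pot
      rw [coe_add_sub]
      congr 2
      rw [norm_sq_eq z]
      ring
    rw [key, key, key, map_add, map_smul, map_smul]
    exact hconv _ _ a b ha hb hab

end Pool.Agent.U744.BC2
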